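import Pool.Agent.Helper8.Kak.DefsC

/-!
# Module C1 of MP_013a6c_an: lists
-/

namespace KakC

namespace C1aux

theorem common {v : List ℕ} : ∀ {c c' : List ℕ}, c.Sublist v → c'.Sublist v →
    ∃ d : List ℕ, d.Sublist c ∧ d.Sublist c' ∧ c.length + c'.length ≤ v.length + d.length := by
  induction v with
  | nil =>
    intro c c' h h'
    rw [List.sublist_nil] at h h'
    subst h h'
    exact ⟨[], List.Sublist.refl _, List.Sublist.refl _, by simp⟩
  | cons a v ih =>
    intro c c' h h'
    rcases List.sublist_cons_iff.mp h with h1 | ⟨c1, rfl, h1⟩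
    · rcases List.sublist_cons_iff.mp h' with h2 | ⟨c2, rfl, h2⟩
      · obtain ⟨d, hd1, hd2, hd3⟩ := ih h1 h2
        exact ⟨d, hd1, hd2, by rw [List.length_cons]; omega⟩
      · obtain ⟨d, hd1, hd2, hd3⟩ := ih h1 h2
        exact ⟨d, hd1, hd2.trans (List.sublist_cons_self _ _), by
          rw [List.length_cons, List.length_cons]; omega⟩
    · rcases List.sublist_cons_iff.mp h' with h2 | ⟨c2, rfl, h2⟩
      · obtain ⟨d, hd1, hd2, hd3⟩ := ih h1 h2
        exact ⟨d, hd1.trans (List.sublist_cons_self _ _), hd2, by
          rw [List.length_cons, List.length_cons]; omega⟩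
      · obtain ⟨d, hd1, hd2, hd3⟩ := ih h1 h2
        exact ⟨a :: d, hd1.cons_cons a, hd2.cons_cons a, by
          rw [List.length_cons, List.length_cons, List.length_cons, List.length_cons]; omega⟩

theorem take_sub {c u : List ℕ} (h : c.Sublist u) {n : ℕ} (hn : n ≤ u.length) {k : ℕ}
    (hk : k + (u.length - c.length) ≤ n) : (c.take k).Sublist (u.take n) := by
  have h0 : c.length ≤ u.length := h.length_le
  have h1 : c.Sublist (u.take n ++ u.drop n) := by rwa [List.take_append_drop]
  obtain ⟨c1, c2, rfl, hc1, hc2⟩ := List.sublist_append_iff.mp h1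
  have h2 := hc2.length_le
  rw [List.length_drop] at h2
  rw [List.length_append] at hk h0
  have h3 : k ≤ c1.length := by omega
  rw [List.take_append_of_le_length h3]
  exact (List.take_sublist _ _).trans hc1

theorem length_flatMap_le {g : ℕ → List ℕ} {K : ℕ} (hK : ∀ r, (g r).length ≤ K) (s : List ℕ) :
    (s.flatMap g).length ≤ s.length * K := by
  induction s with
  | nil => simp
  | cons a s ih =>
    rw [List.flatMap_cons, List.length_append, List.length_cons]
    have := hK a
    calc (g a).length + (s.flatMap g).length ≤ K + s.length * K := by omega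
      _ = (s.length + 1) * K := by ring

theorem range_flatMap_add (g : ℕ → List ℕ) (m n : ℕ) :
    (List.range (m + n)).flatMap g =
      (List.range m).flatMap g ++ (List.range n).flatMap (fun s => g (m + s)) := by
  rw [List.range_add, List.flatMap_append, List.flatMap_map]

end C1aux

open C1aux

theorem near_refl (u : List ℕ) : Near 0 u u :=
  ⟨u, List.Sublist.refl _, List.Sublist.refl _, by omega⟩

theorem near_symm {e : ℕ} {u v : List ℕ} (huv : Near e u v) : Near e v u := by
  obtain ⟨c, h1, h2, h3⟩ := huv
  exact ⟨c, h2, h1, by omega⟩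

theorem near_mono {e e' : ℕ} {u v : List ℕ} (huv : Near e u v) (hee : e ≤ e') :
    Near e' u v := by
  obtain ⟨c, h1, h2, h3⟩ := huv
  exact ⟨c, h1, h2, by omega⟩

theorem near_trans {e e' : ℕ} {u v x : List ℕ} (h1 : Near e u v) (h2 : Near e' v x) :
    Near (e + e') u x := by
  obtain ⟨c, hc1, hc2, hc3⟩ := h1
  obtain ⟨c', hc1', hc2', hc3'⟩ := h2
  obtain ⟨d, hd1, hd2, hd3⟩ := common hc2 hc1'
  exact ⟨d, hd1.trans hc1, hd2.trans hc2', by omega⟩

theorem near_append {e e' : ℕ} {u v u' v' : List ℕ} (h1 : Near e u v) (h2 : Near e' u' v') :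
    Near (e + e') (u ++ u') (v ++ v') := by
  obtain ⟨c, hc1, hc2, hc3⟩ := h1
  obtain ⟨c', hc1', hc2', hc3'⟩ := h2
  exact ⟨c ++ c', hc1.append hc1', hc2.append hc2', by
    simp only [List.length_append]; omega⟩

theorem near_dd (u v : List ℕ) : Near (dd u v) u v := by
  rw [dd]
  split_ifs with h
  · subst h
    exact near_refl u
  · exact ⟨[], List.nil_sublist _, List.nil_sublist _, by simp⟩

theorem near_flatMap (g g' : ℕ → List ℕ) (n : ℕ) :
    Near (∑ s ∈ Finset.range n, dd (g s) (g' s)) ((List.range n).flatMap g)
      ((List.range n).flatMap g') := by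
  induction n with
  | zero => exact near_refl _
  | succ n ih =>
    rw [Finset.sum_range_succ, List.range_succ, List.flatMap_append, List.flatMap_append,
      List.flatMap_singleton, List.flatMap_singleton]
    exact near_append ih (near_dd _ _)

theorem near_take {e n : ℕ} {u v : List ℕ} (huv : Near e u v) (hu : n ≤ u.length)
    (hv : n ≤ v.length) : Near (2 * e) (u.take n) (v.take n) := by
  obtain ⟨c, h1, h2, h3⟩ := huv
  have h4 := h1.length_le
  have h5 := h2.length_le
  by_cases hne : n ≤ e
  · exact ⟨[], List.nil_sublist _, List.nil_sublist _, by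
      rw [List.length_take_of_le hu, List.length_take_of_le hv]; simp; omega⟩
  · refine ⟨c.take (n - e), take_sub h1 hu (by omega), take_sub h2 hv (by omega), ?_⟩
    rw [List.length_take_of_le hu, List.length_take_of_le hv, List.length_take_of_le (by omega)]
    omega

/-- two windows of the same sequence of words -/
theorem near_window {g : ℕ → List ℕ} {K : ℕ} (hK : ∀ r, (g r).length ≤ K) {l l' H : ℕ}
    (hl : l < H) (hl' : l' < H) (n : ℕ) :
    Near (2 * H * K) ((List.range n).flatMap (fun s => g (l + s)))
      ((List.range n).flatMap (fun s => g (l' + s))) := by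
  wlog hll : l ≤ l' generalizing l l'
  · exact near_symm (this hl' hl (by omega))
  obtain ⟨d, rfl⟩ := Nat.exists_eq_add_of_le hll
  by_cases hn : n ≤ d
  · refine ⟨[], List.nil_sublist _, List.nil_sublist _, ?_⟩
    have h1 := length_flatMap_le (fun s => hK (l + s)) (List.range n)
    have h2 := length_flatMap_le (fun s => hK (l + d + s)) (List.range n)
    rw [List.length_range] at h1 h2
    have h3 : n * K ≤ H * K := Nat.mul_le_mul_right K (by omega)
    have h4 : 2 * H * K = H * K + H * K := by ring
    rw [List.length_nil]
    omega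
  · obtain ⟨m, rfl⟩ := Nat.exists_eq_add_of_le (not_le.mp hn).le
    have e1 : (List.range (d + m)).flatMap (fun s => g (l + s)) =
        (List.range d).flatMap (fun s => g (l + s)) ++
          (List.range m).flatMap (fun s => g (l + d + s)) := by
      rw [range_flatMap_add]
      simp only [add_assoc]
    have e2 : (List.range (d + m)).flatMap (fun s => g (l + d + s)) =
        (List.range m).flatMap (fun s => g (l + d + s)) ++
          (List.range d).flatMap (fun s => g (l + d + (m + s))) := by
      rw [add_comm d m, range_flatMap_add]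
    rw [e1, e2]
    refine ⟨(List.range m).flatMap (fun s => g (l + d + s)), List.sublist_append_right _ _,
      List.sublist_append_left _ _, ?_⟩
    have h1 := length_flatMap_le (fun s => hK (l + s)) (List.range d)
    have h2 := length_flatMap_le (fun s => hK (l + d + (m + s))) (List.range d)
    rw [List.length_range] at h1 h2
    have h3 : d * K ≤ H * K := Nat.mul_le_mul_right K (by omega)
    have h4 : 2 * H * K = H * K + H * K := by ring
    rw [List.length_append, List.length_append]
    omega

end KakC
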